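import Mathlib
import Pool.Agent.P8H71.RQ.Asm

set_option autoImplicit false

namespace Pool.Agent.Results.MP_6b55e5_an.NoPropertyS

open MeasureTheory

/-- The Euclidean plane. -/
abbrev Plane : Type := EuclideanSpace ℝ (Fin 2)

/-- `S` is a closed strip of width `w > 0`: the closed set between the two parallel lines
`⟪u, x⟫ = c` and `⟪u, x⟫ = c + w`, where `u` is a unit vector. -/
def IsStrip (S : Set Plane) (w : ℝ) : Prop :=
  0 < w ∧ ∃ (u : Plane) (c : ℝ), ‖u‖ = 1 ∧ S = {x | c ≤ inner ℝ u x ∧ inner ℝ u x ≤ c + w}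

/-- A Besicovitch set: bounded, Lebesgue null, with a closed unit segment in every direction. -/
def IsBesicovitch (E : Set Plane) : Prop :=
  Bornology.IsBounded E ∧ volume E = 0 ∧
    ∀ e : Plane, ‖e‖ = 1 → ∃ x : Plane, segment ℝ x (x + e) ⊆ E

/-- `E` is covered by finitely or countably many closed strips of total width less than `ε`. -/
def HasStripCover (E : Set Plane) (ε : ℝ) : Prop :=
  ∃ (ι : Type) (_ : Countable ι) (S : ι → Set Plane) (w : ι → ℝ),
    (∀ i, IsStrip (S i) (w i)) ∧ (E ⊆ ⋃ i, S i) ∧ Summable w ∧ (∑' i, w i) < ε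

/-- Property (S). -/
def PropertyS (E : Set Plane) : Prop := ∀ ε : ℝ, 0 < ε → HasStripCover E ε

/-- The union of the unit segments `[x e, x e + e]`, where `e` runs over the unit vectors. -/
def needles (x : Plane → Plane) : Set Plane :=
  {y | ∃ e : Plane, ‖e‖ = 1 ∧ y ∈ segment ℝ (x e) (x e + e)}

open Pool.Agent.P8H71.RQ

/-- coordinates -/
def T (y : Plane) : ℝ × ℝ := (y 0, y 1)

/-- inverse of the coordinates -/
noncomputable def G (p : ℝ × ℝ) : Plane := !₂[p.1, p.2]

theorem T_G (p : ℝ × ℝ) : T (G p) = p := by simp [T, G]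

theorem G_T (y : Plane) : G (T y) = y := by
  ext i; fin_cases i <;> simp [T, G]

theorem T_cont : Continuous T := by unfold T; fun_prop

theorem G_cont : Continuous G := by
  unfold G; fun_prop

theorem T_mp : MeasurePreserving T volume volume := by
  have h1 := EuclideanSpace.volume_preserving_symm_measurableEquiv_toLp (Fin 2)
  have h2 := volume_preserving_finTwoArrow ℝ
  exact h2.comp h1

theorem T_add_smul (a e : Plane) (t : ℝ) : T (a + t • e) = T a + t • T e := by
  simp [T]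

theorem norm_iff (e : Plane) : ‖e‖ = 1 ↔ (T e).1 ^ 2 + (T e).2 ^ 2 = 1 := by
  rw [EuclideanSpace.norm_eq, Real.sqrt_eq_one, Fin.sum_univ_two]
  simp [T]

theorem inner_T (u y : Plane) : inner ℝ u y = u 0 * y 0 + u 1 * y 1 := by
  rw [PiLp.inner_apply, Fin.sum_univ_two]
  simp [mul_comm]

theorem mem_seg (a e y : Plane) : y ∈ segment ℝ a (a + e) ↔ ∃ t : ℝ, 0 ≤ t ∧ t ≤ 1 ∧
    a + t • e = y := by
  rw [segment_eq_image']
  simp only [add_sub_cancel_left, Set.mem_image, Set.mem_Icc, and_assoc]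

theorem compact_star (K : Set Plane) (hK : IsCompact K) :
    IsCompact {y : Plane | ∃ a e : Plane, ‖e‖ = 1 ∧ y ∈ segment ℝ a (a + e) ∧
      segment ℝ a (a + e) ⊆ K} := by
  set Q : Set (Plane × Plane × ℝ) := {q | ‖q.2.1‖ = 1 ∧ 0 ≤ q.2.2 ∧ q.2.2 ≤ 1 ∧
    ∀ s : ℝ, 0 ≤ s → s ≤ 1 → q.1 + s • q.2.1 ∈ K} with hQ
  have hQc : IsClosed Q := by
    have h1 : IsClosed {q : Plane × Plane × ℝ | ‖q.2.1‖ = 1} :=
      isClosed_eq (by fun_prop) continuous_const
    have h2 : IsClosed {q : Plane × Plane × ℝ | 0 ≤ q.2.2} :=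
      isClosed_le continuous_const (by fun_prop)
    have h3 : IsClosed {q : Plane × Plane × ℝ | q.2.2 ≤ 1} :=
      isClosed_le (by fun_prop) continuous_const
    have h4 : IsClosed (⋂ s : Set.Icc (0 : ℝ) 1,
        {q : Plane × Plane × ℝ | q.1 + (s : ℝ) • q.2.1 ∈ K}) :=
      isClosed_iInter fun s => hK.isClosed.preimage (by fun_prop)
    have : Q = {q : Plane × Plane × ℝ | ‖q.2.1‖ = 1} ∩ ({q | 0 ≤ q.2.2} ∩ ({q | q.2.2 ≤ 1} ∩
        (⋂ s : Set.Icc (0 : ℝ) 1, {q : Plane × Plane × ℝ | q.1 + (s : ℝ) • q.2.1 ∈ K}))) := by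
      ext q
      simp only [hQ, Set.mem_inter_iff, Set.mem_ofPred_eq, Set.mem_iInter, Subtype.forall,
        Set.mem_Icc, and_imp]
    rw [this]
    exact h1.inter (h2.inter (h3.inter h4))
  have hQs : Q ⊆ K ×ˢ (Metric.sphere (0 : Plane) 1 ×ˢ Set.Icc (0 : ℝ) 1) := by
    rintro ⟨a, e, t⟩ ⟨h1, h2, h3, h4⟩
    refine ⟨?_, ?_, h2, h3⟩
    · have := h4 0 le_rfl zero_le_one
      simpa using this
    · simpa using h1
  have hQk : IsCompact Q :=
    (hK.prod ((isCompact_sphere _ _).prod isCompact_Icc)).of_isClosed_subset hQc hQs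
  have himg : {y : Plane | ∃ a e : Plane, ‖e‖ = 1 ∧ y ∈ segment ℝ a (a + e) ∧
      segment ℝ a (a + e) ⊆ K} = (fun q : Plane × Plane × ℝ => q.1 + q.2.2 • q.2.1) '' Q := by
    ext y
    constructor
    · rintro ⟨a, e, he, hy, hs⟩
      obtain ⟨t, ht0, ht1, rfl⟩ := (mem_seg a e y).1 hy
      exact ⟨(a, e, t), ⟨he, ht0, ht1, fun s h0 h1 => hs ((mem_seg _ _ _).2 ⟨s, h0, h1, rfl⟩)⟩, rfl⟩
    · rintro ⟨⟨a, e, t⟩, ⟨he, ht0, ht1, hs⟩, rfl⟩
      refine ⟨a, e, he, (mem_seg _ _ _).2 ⟨t, ht0, ht1, rfl⟩, ?_⟩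
      intro z hz
      obtain ⟨s, h0, h1, rfl⟩ := (mem_seg a e z).1 hz
      exact hs s h0 h1
  rw [himg]
  exact hQk.image (by fun_prop)

theorem HasStripCover.mono {E F : Set Plane} {ε : ℝ} (h : HasStripCover F ε) (hEF : E ⊆ F) :
    HasStripCover E ε := by
  obtain ⟨ι, hι, S, w, h1, h2, h3, h4⟩ := h
  exact ⟨ι, hι, S, w, h1, hEF.trans h2, h3, h4⟩

/-- There are a compact Besicovitch set `E`, all of whose points lie on unit segments contained
in `E`, and a choice `[x e, x e + e]` of exactly one unit segment of `E` in every direction (the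
segments chosen for `e` and `-e` coincide), such that already the union of the chosen segments,
itself a Besicovitch set, has no covering by finitely or countably many strips of total width
less than `1 / 2`. Neither this union nor `E` has property (S). -/
theorem result :
    ∃ (E : Set Plane) (x : Plane → Plane),
      IsCompact E ∧ IsBesicovitch E ∧
      (∀ y ∈ E, ∃ a e : Plane, ‖e‖ = 1 ∧ y ∈ segment ℝ a (a + e) ∧ segment ℝ a (a + e) ⊆ E) ∧
      (∀ e : Plane, ‖e‖ = 1 → x (-e) = x e + e ∧ segment ℝ (x e) (x e + e) ⊆ E) ∧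
      IsBesicovitch (needles x) ∧
      ¬ HasStripCover (needles x) (1 / 2) ∧ ¬ HasStripCover E (1 / 2) ∧
      ¬ PropertyS (needles x) ∧ ¬ PropertyS E := by
  obtain ⟨K, x, hK, hK0, hx, hseg, hcov⟩ := assemble
  set K' : Set Plane := T ⁻¹' K with hK'
  have hK'c : IsCompact K' := by
    have : K' = G '' K := by
      ext y
      constructor
      · intro hy; exact ⟨T y, hy, G_T y⟩
      · rintro ⟨p, hp, rfl⟩
        change T (G p) ∈ K
        rw [T_G]; exact hp
    rw [this]; exact hK.image G_cont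
  have hK'0 : volume K' = 0 := by
    rw [hK', T_mp.measure_preimage hK.isClosed.measurableSet.nullMeasurableSet]; exact hK0
  set E : Set Plane := {y : Plane | ∃ a e : Plane, ‖e‖ = 1 ∧ y ∈ segment ℝ a (a + e) ∧
      segment ℝ a (a + e) ⊆ K'} with hE
  have hEc : IsCompact E := compact_star K' hK'c
  have hEK : E ⊆ K' := by
    rintro y ⟨a, e, _, hy, hs⟩; exact hs hy
  have hE0 : volume E = 0 := measure_mono_null hEK hK'0
  set X : Plane → Plane := fun e => G (x (T e)) with hX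
  have hXseg : ∀ e : Plane, ‖e‖ = 1 → segment ℝ (X e) (X e + e) ⊆ K' := by
    intro e he y hy
    obtain ⟨t, h0, h1, rfl⟩ := (mem_seg _ _ _).1 hy
    change T (X e + t • e) ∈ K
    rw [T_add_smul, hX]
    simp only
    rw [T_G]
    exact hseg (T e) ((norm_iff e).1 he) t h0 h1
  have hXE : ∀ e : Plane, ‖e‖ = 1 → segment ℝ (X e) (X e + e) ⊆ E := by
    intro e he y hy
    exact ⟨X e, e, he, hy, hXseg e he⟩
  have hneedles : needles X ⊆ E := by
    rintro y ⟨e, he, hy⟩; exact hXE e he hy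
  have hEB : IsBesicovitch E := ⟨hEc.isBounded, hE0, fun e he => ⟨X e, hXE e he⟩⟩
  have hNB : IsBesicovitch (needles X) :=
    ⟨hEc.isBounded.subset hneedles, measure_mono_null hneedles hE0,
      fun e he => ⟨X e, fun y hy => ⟨e, he, hy⟩⟩⟩
  have hmain : ¬ HasStripCover (needles X) (1 / 2) := by
    rintro ⟨ι, hι, S, w, hS, hcover, hsum, hlt⟩
    choose hw u c hu hSe using hS
    obtain ⟨p, hpA, hp⟩ := AA_strips (fun i => u i 0) (fun i => u i 1) c w
      (fun i => (norm_iff (u i)).1 (hu i)) (fun i => (hw i).le) hsum hlt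
    have hne : Nonempty ι := by
      by_contra h
      rw [not_nonempty_iff] at h
      obtain ⟨y, hy⟩ : (needles X).Nonempty := by
        have h1 : ‖G (1, 0)‖ = 1 := by rw [norm_iff, T_G]; norm_num
        exact ⟨X (G (1, 0)), G (1, 0), h1, left_mem_segment _ _ _⟩
      have := hcover hy
      simp at this
    obtain ⟨g, hg⟩ := exists_surjective_nat ι
    obtain ⟨e, t, he, ht0, ht1, hn⟩ := hcov (fun n => (u (g n) 0, u (g n) 1, c (g n), w (g n)))
      ⟨p, hpA, fun n => hp (g n)⟩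
    have hmem : G (x e) + t • G e ∈ needles X := by
      refine ⟨G e, ?_, ?_⟩
      · rw [norm_iff, T_G]; exact he
      · have : X (G e) = G (x e) := by simp only [hX, T_G]
        rw [this, mem_seg]
        exact ⟨t, ht0, ht1, rfl⟩
    obtain ⟨i, hi⟩ := Set.mem_iUnion.1 (hcover hmem)
    obtain ⟨n, rfl⟩ := hg i
    rw [hSe] at hi
    apply hn n
    have h3 : T (G (x e) + t • G e) = x e + t • e := by rw [T_add_smul, T_G, T_G]
    obtain ⟨h4, h5⟩ := hi
    rw [inner_T] at h4 h5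
    have h6 : (G (x e) + t • G e) 0 = (x e + t • e).1 := by rw [← h3]; rfl
    have h7 : (G (x e) + t • G e) 1 = (x e + t • e).2 := by rw [← h3]; rfl
    rw [h6, h7] at h4 h5
    exact ⟨h4, h5⟩
  refine ⟨E, X, hEc, hEB, ?_, ?_, hNB, hmain, fun h => hmain (h.mono hneedles),
    fun h => hmain (h _ (by norm_num)), fun h => hmain ((h _ (by norm_num)).mono hneedles)⟩
  · rintro y ⟨a, e, he, hy, hs⟩
    exact ⟨a, e, he, hy, fun z hz => ⟨a, e, he, hz, hs⟩⟩
  · intro e he
    refine ⟨?_, hXE e he⟩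
    have h1 : T (-e) = -T e := by simp [T]
    have h2 := hx (T e) ((norm_iff e).1 he)
    simp only [hX]
    rw [h1, h2]
    have h3 : G (x (T e) + T e) = G (x (T e)) + G (T e) := by
      ext i; fin_cases i <;> simp [G]
    rw [h3, G_T]

end Pool.Agent.Results.MP_6b55e5_an.NoPropertyS
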